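import Mathlib
import Pool.Agent.H34.Fun

namespace Pool.Agent.Results.MP_42f001_co.Prime
open Pool.Agent.H34.FunDefs

/-- If the prime graphs of a hereditary class have functionality at most `k`, then all graphs of
the class have functionality at most `4 k + 7`. -/
theorem result (X : ∀ V : Type, SimpleGraph V → Prop)
    (hX : ∀ (V W : Type) (G : SimpleGraph V) (H : SimpleGraph W), H.IsIndContained G → X V G → X W H)
    (k : ℕ) (h : ∀ (V : Type) [Finite V] (G : SimpleGraph V), X V G → Prime G → gfun G ≤ k)
    (V : Type) [Finite V] (G : SimpleGraph V) (hG : X V G) : gfun G ≤ 4 * k + 7 :=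
  Pool.Agent.H34.Fun.main X hX k h V G hG

end Pool.Agent.Results.MP_42f001_co.Prime
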